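import Pool.Agent.Helper24.HW.Stmts

namespace Pool.Agent.Helper7.HW

open Equiv Equiv.Perm Pool.Agent.Helper24.HW Pool.Agent.Helper24.HWPub Pool.Agent.Helper98.Gn

section sw

variable {X : Type} [DecidableEq X] {x y w z : X}

theorem cn (h1 : z ≠ x) (h2 : z ≠ y) (h3 : z ≠ w) : (swap x y * swap y w : Perm X) z = z := by
  rw [Perm.mul_apply, swap_apply_of_ne_of_ne h2 h3, swap_apply_of_ne_of_ne h1 h2]

theorem c0 (h1 : x ≠ y) (h2 : x ≠ w) : (swap x y * swap y w : Perm X) x = y := by
  rw [Perm.mul_apply, swap_apply_of_ne_of_ne h1 h2, swap_apply_left]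

theorem c1 (h1 : w ≠ x) (h2 : w ≠ y) : (swap x y * swap y w : Perm X) y = w := by
  rw [Perm.mul_apply, swap_apply_left, swap_apply_of_ne_of_ne h1 h2]

theorem c2 : (swap x y * swap y w : Perm X) w = x := by
  rw [Perm.mul_apply, swap_apply_right, swap_apply_right]

end sw

theorem rot_big (k j t : ℕ) (ht : k ≤ t) : rot k j (t + 1) = rot k j t := by
  apply Equiv.ext
  rintro (x | (⟨i, s⟩ | x))
  · rfl
  · have h1 : (i : ℕ) < t + 1 := by have := i.2; omega
    have h2 : (i : ℕ) < t := by have := i.2; omega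
    simp only [rot, Equiv.sumCongr_apply, Sum.map_inr, Sum.map_inl, Equiv.prodShear_apply,
      Equiv.refl_apply, if_pos h1, if_pos h2]
  · rfl

/-- darts of a bottom vertex -/
def bd (k j t : ℕ) (ht : t < k) (s : Fin 3) : TT k j :=
  Sum.inr (Sum.inl ((⟨t, ht⟩ : Fin k), s))

theorem bd_inj (k j t : ℕ) (ht : t < k) {s s' : Fin 3} (h : bd k j t ht s = bd k j t ht s') :
    s = s' :=
  congrArg Prod.snd (Sum.inl.inj (Sum.inr.inj h))

theorem rot_small (k j t : ℕ) (ht : t < k) :
    rot k j (t + 1) = rot k j t *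
      (swap (bd k j t ht 0) (bd k j t ht 1) * swap (bd k j t ht 1) (bd k j t ht 2)) := by
  apply Equiv.ext
  rintro (x | (⟨i, s⟩ | x))
  · have hne : ∀ s : Fin 3, (Sum.inl x : TT k j) ≠ bd k j t ht s := by
      intro s h
      simp [bd] at h
    rw [Perm.mul_apply, cn (hne _) (hne _) (hne _)]
    rfl
  · by_cases hi : i = ⟨t, ht⟩
    · subst hi
      have h1 : ((⟨t, ht⟩ : Fin k) : ℕ) < t + 1 := by simp
      have h2 : ¬ ((⟨t, ht⟩ : Fin k) : ℕ) < t := by simp
      have e1 : ∀ s : Fin 3, rot k j (t + 1) (bd k j t ht s) = bd k j t ht (s + 2) := by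
        intro s
        simp only [bd, rot, Equiv.sumCongr_apply, Sum.map_inr, Sum.map_inl,
          Equiv.prodShear_apply, Equiv.refl_apply, if_pos h1, Equiv.coe_addRight]
      have e2 : ∀ s : Fin 3, rot k j t (bd k j t ht s) = bd k j t ht (s + 1) := by
        intro s
        simp only [bd, rot, Equiv.sumCongr_apply, Sum.map_inr, Sum.map_inl,
          Equiv.prodShear_apply, Equiv.refl_apply, if_neg h2, Equiv.coe_addRight]
      have n01 : bd k j t ht 0 ≠ bd k j t ht 1 := fun h => by
        have := bd_inj k j t ht h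
        revert this
        decide
      have n02 : bd k j t ht 0 ≠ bd k j t ht 2 := fun h => by
        have := bd_inj k j t ht h
        revert this
        decide
      have n12 : bd k j t ht 1 ≠ bd k j t ht 2 := fun h => by
        have := bd_inj k j t ht h
        revert this
        decide
      change rot k j (t + 1) (bd k j t ht s) = (rot k j t *
        (swap (bd k j t ht 0) (bd k j t ht 1) * swap (bd k j t ht 1) (bd k j t ht 2)))
        (bd k j t ht s)
      rw [e1, Perm.mul_apply]
      have hs : s = 0 ∨ s = 1 ∨ s = 2 := by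
        revert s
        decide
      rcases hs with h | h | h
      · rw [h, c0 n01 n02, e2]
        rfl
      · rw [h, c1 n02.symm n12.symm, e2]
        rfl
      · rw [h, c2, e2]
        rfl
    · have hne : ∀ s s' : Fin 3, (Sum.inr (Sum.inl (i, s)) : TT k j) ≠ bd k j t ht s' := by
        intro s s' h
        have h3 := Sum.inl.inj (Sum.inr.inj h)
        exact hi (congrArg Prod.fst h3)
      rw [Perm.mul_apply, cn (hne _ _) (hne _ _) (hne _ _)]
      have h4 : (i : ℕ) ≠ t := fun h => hi (Fin.ext h)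
      have h5 : ((i : ℕ) < t + 1) = ((i : ℕ) < t) := by
        apply propext
        omega
      simp only [rot, Equiv.sumCongr_apply, Sum.map_inr, Sum.map_inl, Equiv.prodShear_apply,
        Equiv.refl_apply, h5]
  · have hne : ∀ s : Fin 3, (Sum.inr (Sum.inr x) : TT k j) ≠ bd k j t ht s := by
      intro s h
      simp [bd] at h
    rw [Perm.mul_apply, cn (hne _) (hne _) (hne _)]
    rfl

theorem st_CST : ST_CST := by
  intro k j t _ h
  by_cases ht : k ≤ t
  · rw [rot_big k j t ht]
    omega
  · rw [rot_small k j t (by omega)]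
    set G : Perm (TT k j) := h.toPerm (ngf k j)
    rw [mul_assoc, mul_assoc, swap_mul_eq_mul_swap G, ← mul_assoc (swap _ _) G,
      swap_mul_eq_mul_swap G, ← mul_assoc, ← mul_assoc]
    refine le_trans (cyc_swap_le _ _ _) ?_
    have h1 := cyc_swap_le (rot k j t * G)
      (G⁻¹ (bd k j t (by omega) 0)) (G⁻¹ (bd k j t (by omega) 1))
    omega

end Pool.Agent.Helper7.HW
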