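import Pool.Agent.Helper24.HW.Stmts

namespace Pool.Agent.Helper7.HW

open Equiv Equiv.Perm Pool.Agent.Helper24.HW Pool.Agent.Helper24.HWPub Pool.Agent.Helper98.Gn

theorem fib {X : Type} [Fintype X] (f : Perm X) (k : ℕ)
    (h : ∀ x : X, ∃ s : Finset X, s.card = k ∧ ∀ a, a ∈ s ↔ SameCycle f a x) :
    k * cyc f = Nat.card X := by
  classical
  have hf : Fintype (Quotient (SameCycle.setoid f)) := Fintype.ofFinite _
  have h1 : (Finset.univ : Finset X).card = ∑ b : Quotient (SameCycle.setoid f),
      ((Finset.univ : Finset X).filter fun a => Quotient.mk (SameCycle.setoid f) a = b).card :=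
    Finset.card_eq_sum_card_fiberwise fun a _ => Finset.mem_univ _
  have h2 : ∀ b : Quotient (SameCycle.setoid f),
      ((Finset.univ : Finset X).filter fun a => Quotient.mk (SameCycle.setoid f) a = b).card =
        k := by
    intro b
    obtain ⟨x, rfl⟩ := Quotient.exists_rep b
    obtain ⟨s, hs1, hs2⟩ := h x
    rw [← hs1]
    congr 1
    ext a
    rw [Finset.mem_filter, hs2]
    constructor
    · intro h3
      exact Quotient.exact h3.2
    · intro h3
      exact ⟨Finset.mem_univ _, Quotient.sound h3⟩
  rw [Finset.sum_congr rfl fun b _ => h2 b, Finset.sum_const, Finset.card_univ, Finset.card_univ,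
    smul_eq_mul] at h1
  rw [Nat.card_eq_fintype_card, h1, mul_comm]
  congr 1
  rw [cyc, Nat.card_eq_fintype_card]

theorem st_CUB : ST_CUB := by
  classical
  intro X _ f
  constructor
  · intro h2 hne
    apply fib f 2
    intro x
    refine ⟨{x, f x}, Finset.card_pair (hne x).symm, ?_⟩
    intro a
    rw [Finset.mem_insert, Finset.mem_singleton]
    constructor
    · rintro (h | h)
      · rw [h]
      · rw [h]
        exact sameCycle_apply_left.2 (SameCycle.refl f x)
    · intro h
      have h3 : a = x ∨ a = f x := sc_induct (π := f) (fun u v => v = u ∨ v = f u)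
        (fun _ => Or.inl rfl) (by
          rintro u v w (h4 | h4) (h5 | h5)
          · left; rw [h5, h4]
          · right; rw [h5, h4]
          · right; rw [h5, h4]
          · left; rw [h5, h4, h2]) (fun z => Or.inr rfl) h.symm
      exact h3
  · intro h3 hne
    apply fib f 3
    intro x
    have e1 : f (f x) ≠ x := by
      intro h
      have h4 := h3 x
      rw [h] at h4
      exact hne x h4
    have e2 : f (f x) ≠ f x := hne (f x)
    refine ⟨{x, f x, f (f x)}, ?_, ?_⟩
    · rw [Finset.card_insert_of_notMem, Finset.card_pair e2.symm]
      rw [Finset.mem_insert, Finset.mem_singleton]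
      rintro (h | h)
      · exact hne x h.symm
      · exact e1 h.symm
    · intro a
      rw [Finset.mem_insert, Finset.mem_insert, Finset.mem_singleton]
      constructor
      · rintro (h | h | h)
        · rw [h]
        · rw [h]
          exact sameCycle_apply_left.2 (SameCycle.refl f x)
        · rw [h]
          exact sameCycle_apply_left.2 (sameCycle_apply_left.2 (SameCycle.refl f x))
      · intro h
        have h5 : a = x ∨ a = f x ∨ a = f (f x) :=
          sc_induct (π := f) (fun u v => v = u ∨ v = f u ∨ v = f (f u))
          (fun _ => Or.inl rfl) (by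
            rintro u v w (h4 | h4 | h4) (h5 | h5 | h5)
            · left; rw [h5, h4]
            · right; left; rw [h5, h4]
            · right; right; rw [h5, h4]
            · right; left; rw [h5, h4]
            · right; right; rw [h5, h4]
            · left; rw [h5, h4, h3]
            · right; right; rw [h5, h4]
            · left; rw [h5, h4, h3]
            · right; left; rw [h5, h4, h3]) (fun z => Or.inr (Or.inl rfl)) h.symm
        exact h5

end Pool.Agent.Helper7.HW
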